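import Pool.Agent.R331.PerRec

open Pool.Agent.R331.PerRec

namespace Pool.Agent.Results.MP_aa7c57_an.PeriodicCriterion

/-- `x n` is the term `x_{n-2}` of a positive solution of
`x_{n+1} = 1 / (C_n x_{n-1} + x_{n-2})`, where `C_n = C (n mod k)`. -/
def IsSolution {k : ℕ} (C : ZMod k → ℝ) (x : ℕ → ℝ) : Prop :=
  (∀ n, 0 < x n) ∧ ∀ n : ℕ, x (n + 3) = 1 / (C n * x (n + 1) + x n)

/-- boundedness -/
def Bounded (x : ℕ → ℝ) : Prop := ∃ M, ∀ n, x n ≤ M

/-- the cyclic system of `k` equations in `k` positive unknowns -/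
def Cyclic {k : ℕ} (C : ZMod k → ℝ) (y : ZMod k → ℝ) : Prop :=
  (∀ i, 0 < y i) ∧ ∀ i, y (i + 1) * (C i * y (i - 1) + y (i - 2)) = 1

/-- `k` is the least period of `C` -/
def LeastPeriod {k : ℕ} (C : ZMod k → ℝ) : Prop := ∀ j : ZMod k, j ≠ 0 → ∃ i, C (i + j) ≠ C i

/-- coefficients -/
def coef {k : ℕ} (C : ZMod k → ℝ) : ZMod k → Fin 3 → ℝ := fun i => ![1, C i, 0]

theorem coef_nonneg {k : ℕ} {C : ZMod k → ℝ} (hC : ∀ i, 0 ≤ C i) : ∀ i j, 0 ≤ coef C i j := by
  intro i j
  fin_cases j <;> simp [coef, hC]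

theorem coef_pos {k : ℕ} {C : ZMod k → ℝ} : ∀ i, ∃ j, 0 < coef C i j :=
  fun i => ⟨0, by simp [coef]⟩

theorem S_coef {k : ℕ} (C : ZMod k → ℝ) (i : ZMod k) (v : Fin 3 → ℝ) :
    S (coef C) i v = C i * v 1 + v 0 := by
  simp [S, coef, Fin.sum_univ_three]
  ring

theorem sol_iff {k : ℕ} {C : ZMod k → ℝ} (hC : ∀ i, 0 ≤ C i) (x : ℕ → ℝ) :
    IsSolution C x ↔ Sol (coef C) x := by
  unfold IsSolution Sol
  refine and_congr_right fun hx => forall_congr' fun n => ?_
  rw [S_coef]
  simp only [Fin.val_zero, Fin.val_one, add_zero]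
  have : 0 < C n * x (n + 1) + x n := by
    have := mul_nonneg (hC n) (hx (n + 1)).le
    linarith [hx n]
  constructor
  · intro h; rw [h]; field_simp
  · intro h; field_simp; linarith

theorem cyc_iff {k : ℕ} {C : ZMod k → ℝ} :
    (∃ y, Cyclic C y) ↔ ∃ y, Cyc (coef C) y := by
  constructor
  · rintro ⟨y, hy, h⟩
    refine ⟨fun i => y (i - 2), fun i => hy _, fun i => ?_⟩
    rw [S_coef]
    have := h i
    have e1 : i + ((3 : ℕ) : ZMod k) - 2 = i + 1 := by push_cast; ring
    have e2 : i + (((1 : Fin 3) : ℕ) : ZMod k) - 2 = i - 1 := by simp; ring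
    have e3 : i + (((0 : Fin 3) : ℕ) : ZMod k) - 2 = i - 2 := by simp
    simp only [e1, e2, e3]
    exact this
  · rintro ⟨y, hy, h⟩
    refine ⟨fun i => y (i + 2), fun i => hy _, fun i => ?_⟩
    have := h i
    rw [S_coef] at this
    have e1 : i + 1 + 2 = i + ((3 : ℕ) : ZMod k) := by push_cast; ring
    have e2 : i - 1 + 2 = i + (((1 : Fin 3) : ℕ) : ZMod k) := by simp; ring
    have e3 : i - 2 + 2 = i + (((0 : Fin 3) : ℕ) : ZMod k) := by simp
    simp only [e1, e2, e3]
    exact this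

/-- the positive root of `z^2 + c u z = 1` -/
noncomputable def phi (c u : ℝ) : ℝ := (-(c * u) + Real.sqrt ((c * u) ^ 2 + 4)) / 2

theorem phi_pos (c u : ℝ) : 0 < phi c u := by
  unfold phi
  have h : |c * u| < Real.sqrt ((c * u) ^ 2 + 4) := by
    rw [← Real.sqrt_sq_eq_abs]
    exact Real.sqrt_lt_sqrt (sq_nonneg _) (by linarith)
  have := le_abs_self (c * u)
  linarith

theorem phi_le_one {c u : ℝ} (h : 0 ≤ c * u) : phi c u ≤ 1 := by
  unfold phi
  have : Real.sqrt ((c * u) ^ 2 + 4) ≤ c * u + 2 := by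
    rw [Real.sqrt_le_left (by linarith)]
    nlinarith
  linarith

theorem phi_eq (c u : ℝ) : phi c u * (c * u + phi c u) = 1 := by
  unfold phi
  have h := Real.mul_self_sqrt (show 0 ≤ (c * u) ^ 2 + 4 by positivity)
  nlinarith

theorem phi_cont (c : ℝ) : Continuous (phi c) := by
  unfold phi
  fun_prop

/-- `k = 2` -/
theorem case_two (C : ZMod 2 → ℝ) (hC : ∀ i, 0 ≤ C i) (hp : LeastPeriod C) :
    (∃ y, Cyclic C y) ↔ 0 < C 0 ∧ 0 < C 1 := by
  have hne : C 1 ≠ C 0 := by
    obtain ⟨i, hi⟩ := hp 1 (by decide)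
    fin_cases i
    · exact hi
    · exact fun h => hi (by exact h.symm)
  constructor
  · rintro ⟨y, hy, h⟩
    have h0 : y 1 * (C 0 * y 1 + y 0) = 1 := h 0
    have h1 : y 0 * (C 1 * y 0 + y 1) = 1 := h 1
    have y0 := hy 0
    have y1 := hy 1
    have key : C 0 * y 1 ^ 2 = C 1 * y 0 ^ 2 := by nlinarith
    constructor
    · rcases (hC 0).lt_or_eq with h' | h'
      · exact h'
      · exfalso
        rw [← h'] at key
        have : C 1 = 0 := by
          have h2 : C 1 * y 0 ^ 2 = 0 := by linarith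
          rcases mul_eq_zero.1 h2 with h3 | h3
          · exact h3
          · exact absurd h3 (by positivity)
        exact hne (by rw [this, ← h'])
    · rcases (hC 1).lt_or_eq with h' | h'
      · exact h'
      · exfalso
        rw [← h'] at key
        have : C 0 = 0 := by
          have h2 : C 0 * y 1 ^ 2 = 0 := by linarith
          rcases mul_eq_zero.1 h2 with h3 | h3
          · exact h3
          · exact absurd h3 (by positivity)
        exact hne (by rw [this, ← h'])
  · rintro ⟨c0, c1⟩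
    set r := Real.sqrt (C 0) with hr
    set t := Real.sqrt (C 1) with ht
    have r0 : 0 < r := Real.sqrt_pos.2 c0
    have t0 : 0 < t := Real.sqrt_pos.2 c1
    have r2 : r * r = C 0 := Real.mul_self_sqrt c0.le
    have t2 : t * t = C 1 := Real.mul_self_sqrt c1.le
    set a := Real.sqrt (r / (t * (1 + r * t))) with ha
    have a0 : 0 < a := Real.sqrt_pos.2 (by positivity)
    have a2 : a * a = r / (t * (1 + r * t)) := Real.mul_self_sqrt (by positivity)
    refine ⟨![a, 1 / (a * (1 + r * t))], ?_, ?_⟩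
    · intro i
      fin_cases i
      · exact a0
      · show 0 < 1 / (a * (1 + r * t)); positivity
    · intro i
      fin_cases i
      · show 1 / (a * (1 + r * t)) * (C 0 * (1 / (a * (1 + r * t))) + a) = 1
        rw [← r2]
        have h1 : 1 / (a * (1 + r * t)) * (r * r * (1 / (a * (1 + r * t))) + a)
            = (r * r) / ((a * a) * (1 + r * t) ^ 2) + 1 / (1 + r * t) := by
          field_simp
        rw [h1, a2]
        field_simp
        ring
      · show a * (C 1 * a + 1 / (a * (1 + r * t))) = 1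
        rw [← t2]
        have h1 : a * (t * t * a + 1 / (a * (1 + r * t))) = t * t * (a * a) + 1 / (1 + r * t) := by
          field_simp
        rw [h1, a2]
        field_simp
        ring

/-- `k = 3` -/
theorem case_three (C : ZMod 3 → ℝ) (hC : ∀ i, 0 ≤ C i) : ∃ y, Cyclic C y := by
  let Φ : ℝ → ℝ := fun z => phi (C 2) (phi (C 0) (phi (C 1) z))
  have hΦ : Continuous Φ := (phi_cont _).comp ((phi_cont _).comp (phi_cont _))
  have hm : Set.MapsTo Φ (Set.Icc 0 1) (Set.Icc 0 1) := fun z _ =>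
    ⟨(phi_pos _ _).le, phi_le_one (mul_nonneg (hC _) (phi_pos _ _).le)⟩
  obtain ⟨z, -, hz⟩ := exists_mem_Icc_isFixedPt_of_mapsTo hΦ.continuousOn zero_le_one hm
  have hz' : phi (C 2) (phi (C 0) (phi (C 1) z)) = z := hz
  refine ⟨![z, phi (C 0) (phi (C 1) z), phi (C 1) z], ?_, ?_⟩
  · intro i
    fin_cases i
    · show 0 < z
      rw [← hz']; exact phi_pos _ _
    · exact phi_pos _ _
    · exact phi_pos _ _
  · intro i
    fin_cases i
    · exact phi_eq (C 0) (phi (C 1) z)
    · exact phi_eq (C 1) z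
    · show z * (C 2 * phi (C 0) (phi (C 1) z) + z) = 1
      have := phi_eq (C 2) (phi (C 0) (phi (C 1) z))
      rwa [hz'] at this

/-- the numbers whose signs decide the case `k = 5` -/
def Num (C : ZMod 5 → ℝ) (i : ZMod 5) : ℝ :=
  1 - C (i - 2) * (1 - C (i - 4) * (1 - C (i - 6) * (1 - C (i - 8))))

/-- `k = 5` -/
theorem case_five (C : ZMod 5 → ℝ) (hC : ∀ i, 0 ≤ C i) :
    (∃ y, Cyclic C y) ↔ ∀ i, 0 < Num C i := by
  have c0 := hC 0
  have c1 := hC 1
  have c2 := hC 2
  have c3 := hC 3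
  have c4 := hC 4
  have hP : 0 < 1 + C 0 * C 1 * C 2 * C 3 * C 4 := by positivity
  constructor
  · rintro ⟨y, hy, h⟩
    have h0 : y 1 * (C 0 * y 4 + y 3) = 1 := h 0
    have h1 : y 2 * (C 1 * y 0 + y 4) = 1 := h 1
    have h2 : y 3 * (C 2 * y 1 + y 0) = 1 := h 2
    have h3 : y 4 * (C 3 * y 2 + y 1) = 1 := h 3
    have h4 : y 0 * (C 4 * y 3 + y 2) = 1 := h 4
    -- q0 = y4 y1, q1 = y0 y2, q2 = y1 y3, q3 = y2 y4, q4 = y3 y0
    have e2 : y 1 * y 3 = 1 - C 0 * (y 4 * y 1) := by linarith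
    have e3 : y 2 * y 4 = 1 - C 1 * (y 0 * y 2) := by linarith
    have e4 : y 3 * y 0 = 1 - C 2 * (y 1 * y 3) := by linarith
    have e0 : y 4 * y 1 = 1 - C 3 * (y 2 * y 4) := by linarith
    have e1 : y 0 * y 2 = 1 - C 4 * (y 3 * y 0) := by linarith
    have y0 := hy 0
    have y1 := hy 1
    have y2 := hy 2
    have y3 := hy 3
    have y4 := hy 4
    intro i
    fin_cases i
    · show 0 < 1 - C 3 * (1 - C 1 * (1 - C 4 * (1 - C 2)))
      have : 1 - C 3 * (1 - C 1 * (1 - C 4 * (1 - C 2))) =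
          (1 + C 0 * C 1 * C 2 * C 3 * C 4) * (y 4 * y 1) := by
        rw [e3, e1, e4, e2] at e0; linarith
      rw [this]; positivity
    · show 0 < 1 - C 4 * (1 - C 2 * (1 - C 0 * (1 - C 3)))
      have : 1 - C 4 * (1 - C 2 * (1 - C 0 * (1 - C 3))) =
          (1 + C 0 * C 1 * C 2 * C 3 * C 4) * (y 0 * y 2) := by
        rw [e4, e2, e0, e3] at e1; linarith
      rw [this]; positivity
    · show 0 < 1 - C 0 * (1 - C 3 * (1 - C 1 * (1 - C 4)))
      have : 1 - C 0 * (1 - C 3 * (1 - C 1 * (1 - C 4))) =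
          (1 + C 0 * C 1 * C 2 * C 3 * C 4) * (y 1 * y 3) := by
        rw [e0, e3, e1, e4] at e2; linarith
      rw [this]; positivity
    · show 0 < 1 - C 1 * (1 - C 4 * (1 - C 2 * (1 - C 0)))
      have : 1 - C 1 * (1 - C 4 * (1 - C 2 * (1 - C 0))) =
          (1 + C 0 * C 1 * C 2 * C 3 * C 4) * (y 2 * y 4) := by
        rw [e1, e4, e2, e0] at e3; linarith
      rw [this]; positivity
    · show 0 < 1 - C 2 * (1 - C 0 * (1 - C 3 * (1 - C 1)))
      have : 1 - C 2 * (1 - C 0 * (1 - C 3 * (1 - C 1))) =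
          (1 + C 0 * C 1 * C 2 * C 3 * C 4) * (y 3 * y 0) := by
        rw [e2, e0, e3, e1] at e4; linarith
      rw [this]; positivity
  · intro hN
    have n0 : 0 < 1 - C 3 * (1 - C 1 * (1 - C 4 * (1 - C 2))) := hN 0
    have n1 : 0 < 1 - C 4 * (1 - C 2 * (1 - C 0 * (1 - C 3))) := hN 1
    have n2 : 0 < 1 - C 0 * (1 - C 3 * (1 - C 1 * (1 - C 4))) := hN 2
    have n3 : 0 < 1 - C 1 * (1 - C 4 * (1 - C 2 * (1 - C 0))) := hN 3
    have n4 : 0 < 1 - C 2 * (1 - C 0 * (1 - C 3 * (1 - C 1))) := hN 4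
    set D := 1 + C 0 * C 1 * C 2 * C 3 * C 4 with hD
    obtain ⟨q0, hq0⟩ : ∃ q, q = (1 - C 3 * (1 - C 1 * (1 - C 4 * (1 - C 2)))) / D := ⟨_, rfl⟩
    obtain ⟨q1, hq1⟩ : ∃ q, q = (1 - C 4 * (1 - C 2 * (1 - C 0 * (1 - C 3)))) / D := ⟨_, rfl⟩
    obtain ⟨q2, hq2⟩ : ∃ q, q = (1 - C 0 * (1 - C 3 * (1 - C 1 * (1 - C 4)))) / D := ⟨_, rfl⟩
    obtain ⟨q3, hq3⟩ : ∃ q, q = (1 - C 1 * (1 - C 4 * (1 - C 2 * (1 - C 0)))) / D := ⟨_, rfl⟩
    obtain ⟨q4, hq4⟩ : ∃ q, q = (1 - C 2 * (1 - C 0 * (1 - C 3 * (1 - C 1)))) / D := ⟨_, rfl⟩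
    have p0 : 0 < q0 := by rw [hq0]; positivity
    have p1 : 0 < q1 := by rw [hq1]; positivity
    have p2 : 0 < q2 := by rw [hq2]; positivity
    have p3 : 0 < q3 := by rw [hq3]; positivity
    have p4 : 0 < q4 := by rw [hq4]; positivity
    have e2 : q2 + C 0 * q0 = 1 := by rw [hq2, hq0]; field_simp; rw [hD]; ring
    have e3 : q3 + C 1 * q1 = 1 := by rw [hq3, hq1]; field_simp; rw [hD]; ring
    have e4 : q4 + C 2 * q2 = 1 := by rw [hq4, hq2]; field_simp; rw [hD]; ring
    have e0 : q0 + C 3 * q3 = 1 := by rw [hq0, hq3]; field_simp; rw [hD]; ring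
    have e1 : q1 + C 4 * q4 = 1 := by rw [hq1, hq4]; field_simp; rw [hD]; ring
    set a := Real.sqrt (q1 * q0 * q4 / (q3 * q2)) with ha
    have a0 : 0 < a := Real.sqrt_pos.2 (by positivity)
    have a2 : a * a = q1 * q0 * q4 / (q3 * q2) := Real.mul_self_sqrt (by positivity)
    have a2' : a ^ 2 * (q3 * q2) = q1 * q0 * q4 := by
      rw [pow_two, a2]; field_simp
    -- y0 = a, y2 = q1/a, y4 = q3 a/q1, y1 = q0 q1/(q3 a), y3 = q2 q3 a/(q0 q1)
    refine ⟨![a, q0 * q1 / (q3 * a), q1 / a, q2 * q3 * a / (q0 * q1), q3 * a / q1], ?_, ?_⟩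
    · intro i
      fin_cases i
      · exact a0
      · show 0 < q0 * q1 / (q3 * a); positivity
      · show 0 < q1 / a; positivity
      · show 0 < q2 * q3 * a / (q0 * q1); positivity
      · show 0 < q3 * a / q1; positivity
    · intro i
      fin_cases i
      · show q0 * q1 / (q3 * a) * (C 0 * (q3 * a / q1) + q2 * q3 * a / (q0 * q1)) = 1
        rw [← e2]; field_simp; ring
      · show q1 / a * (C 1 * a + q3 * a / q1) = 1
        rw [← e3]; field_simp; ring
      · show q2 * q3 * a / (q0 * q1) * (C 2 * (q0 * q1 / (q3 * a)) + a) = 1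
        have : q2 * q3 * a / (q0 * q1) * (C 2 * (q0 * q1 / (q3 * a)) + a) =
            C 2 * q2 + (a ^ 2 * (q3 * q2)) / (q0 * q1) := by field_simp
        rw [this, a2', ← e4]; field_simp; ring
      · show q3 * a / q1 * (C 3 * (q1 / a) + q0 * q1 / (q3 * a)) = 1
        rw [← e0]; field_simp; ring
      · show a * (C 4 * (q2 * q3 * a / (q0 * q1)) + q1 / a) = 1
        have : a * (C 4 * (q2 * q3 * a / (q0 * q1)) + q1 / a) =
            C 4 * ((a ^ 2 * (q3 * q2)) / (q0 * q1)) + q1 := by field_simp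
        rw [this, a2', ← e1]; field_simp; ring

/-- `k = 4` -/
theorem case_four (C : ZMod 4 → ℝ) (hC : ∀ i, 0 ≤ C i) (hp : LeastPeriod C) :
    (∃ y, Cyclic C y) ↔ (0 < C 0 ∨ 0 < C 2) ∧ (0 < C 1 ∨ 0 < C 3) := by
  have c0 := hC 0
  have c1 := hC 1
  have c2 := hC 2
  have c3 := hC 3
  have hnz : ¬ (C 0 = 0 ∧ C 1 = 0 ∧ C 2 = 0 ∧ C 3 = 0) := by
    rintro ⟨h0, h1, h2, h3⟩
    have hall : ∀ i : ZMod 4, C i = 0 := by
      intro i
      fin_cases i
      · exact h0
      · exact h1
      · exact h2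
      · exact h3
    obtain ⟨i, hi⟩ := hp 1 (by decide)
    exact hi (by rw [hall, hall])
  constructor
  · rintro ⟨y, hy, h⟩
    have h0 : y 1 * (C 0 * y 3 + y 2) = 1 := h 0
    have h1 : y 2 * (C 1 * y 0 + y 3) = 1 := h 1
    have h2 : y 3 * (C 2 * y 1 + y 0) = 1 := h 2
    have h3 : y 0 * (C 3 * y 2 + y 1) = 1 := h 3
    have y0 := hy 0
    have y1 := hy 1
    have y2 := hy 2
    have y3 := hy 3
    have eb : y 1 * y 2 = 1 - C 0 * (y 1 * y 3) := by linarith
    have ec : y 2 * y 3 = 1 - C 1 * (y 0 * y 2) := by linarith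
    have ed : y 3 * y 0 = 1 - C 2 * (y 1 * y 3) := by linarith
    have ea : y 0 * y 1 = 1 - C 3 * (y 0 * y 2) := by linarith
    have hprod : (y 1 * y 2) * (y 3 * y 0) = (y 2 * y 3) * (y 0 * y 1) := by ring
    -- general fact
    have gen : ∀ u v s t : ℝ, 0 ≤ u → 0 ≤ v → 0 < s → 0 < t → s = 1 - u → t = 1 - v → s * t = 1 →
        u = 0 ∧ v = 0 := by
      intro u v s t hu hv hs ht e1 e2 e3
      have hs1 : s ≤ 1 := by linarith
      have ht1 : t ≤ 1 := by linarith
      have : s = 1 := by nlinarith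
      have : t = 1 := by nlinarith
      constructor <;> linarith
    constructor
    · by_contra hcon
      push Not at hcon
      have z0 : C 0 = 0 := le_antisymm hcon.1 c0
      have z2 : C 2 = 0 := le_antisymm hcon.2 c2
      rw [z0, zero_mul, sub_zero] at eb
      rw [z2, zero_mul, sub_zero] at ed
      have := gen (C 1 * (y 0 * y 2)) (C 3 * (y 0 * y 2)) (y 2 * y 3) (y 0 * y 1) (by positivity)
        (by positivity) (by positivity) (by positivity) ec ea (by rw [← hprod, eb, ed]; norm_num)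
      have q : y 0 * y 2 ≠ 0 := by positivity
      exact hnz ⟨z0, (mul_eq_zero.1 this.1).resolve_right q, z2, (mul_eq_zero.1 this.2).resolve_right q⟩
    · by_contra hcon
      push Not at hcon
      have z1 : C 1 = 0 := le_antisymm hcon.1 c1
      have z3 : C 3 = 0 := le_antisymm hcon.2 c3
      rw [z1, zero_mul, sub_zero] at ec
      rw [z3, zero_mul, sub_zero] at ea
      have := gen (C 0 * (y 1 * y 3)) (C 2 * (y 1 * y 3)) (y 1 * y 2) (y 3 * y 0) (by positivity)
        (by positivity) (by positivity) (by positivity) eb ed (by rw [hprod, ec, ea]; norm_num)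
      have q : y 1 * y 3 ≠ 0 := by positivity
      exact hnz ⟨(mul_eq_zero.1 this.1).resolve_right q, z1, (mul_eq_zero.1 this.2).resolve_right q, z3⟩
  · rintro ⟨hm, hn⟩
    have hm' : 0 < max (C 0) (C 2) := lt_max_iff.2 hm
    have hn' : 0 < max (C 1) (C 3) := lt_max_iff.2 hn
    set M := max (C 0) (C 2) with hM
    set N := max (C 1) (C 3) with hN
    have hCM0 : C 0 ≤ M := le_max_left _ _
    have hCM2 : C 2 ≤ M := le_max_right _ _
    have hCN1 : C 1 ≤ N := le_max_left _ _
    have hCN3 : C 3 ≤ N := le_max_right _ _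
    let f : ℝ → ℝ := fun P => (1 - C 0 * P) * (1 - C 2 * P)
    have hfc : Continuous f := by fun_prop
    set pm := 1 / M with hpm
    have pm0 : 0 < pm := by positivity
    have hfpm : f pm = 0 := by
      show (1 - C 0 * (1 / M)) * (1 - C 2 * (1 / M)) = 0
      rcases max_choice (C 0) (C 2) with h | h
      · have : M = C 0 := h
        rw [this]
        have : C 0 ≠ 0 := by rw [← this]; exact hm'.ne'
        field_simp; ring
      · have : M = C 2 := h
        rw [this]
        have : C 2 ≠ 0 := by rw [← this]; exact hm'.ne'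
        field_simp; ring
    have hbpos : ∀ P, P < pm → 0 ≤ P → 0 < 1 - C 0 * P ∧ 0 < 1 - C 2 * P := by
      intro P hP hP0
      have h1 : M * P < 1 := by
        rw [hpm] at hP
        calc M * P < M * (1 / M) := by gcongr
          _ = 1 := by field_simp
      constructor
      · nlinarith
      · nlinarith
    -- first intermediate value
    let g : ℝ → ℝ := fun P => P - N * f P
    have hgc : Continuous g := by fun_prop
    have hg0 : g 0 < 0 := by show 0 - N * ((1 - C 0 * 0) * (1 - C 2 * 0)) < 0; nlinarith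
    have hgpm : 0 < g pm := by show 0 < pm - N * f pm; rw [hfpm]; linarith
    obtain ⟨P0, hP0, hgP0⟩ := intermediate_value_Ioo pm0.le hgc.continuousOn ⟨hg0, hgpm⟩
    have hgP0' : P0 = N * f P0 := by
      have : P0 - N * f P0 = 0 := hgP0
      linarith
    obtain ⟨b0, d0⟩ := hbpos P0 hP0.2 hP0.1.le
    have hfP0 : 0 < f P0 := mul_pos b0 d0
    -- second
    let H : ℝ → ℝ := fun P => (P - C 1 * f P) * (P - C 3 * f P) - P ^ 2 * f P
    have hHc : Continuous H := by fun_prop
    have hHP0 : H P0 < 0 := by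
      show (P0 - C 1 * f P0) * (P0 - C 3 * f P0) - P0 ^ 2 * f P0 < 0
      have h0 : (P0 - C 1 * f P0) * (P0 - C 3 * f P0) = 0 := by
        rcases max_choice (C 1) (C 3) with h | h
        · have : N = C 1 := h
          have : P0 - C 1 * f P0 = 0 := by rw [← this]; linarith
          rw [this, zero_mul]
        · have : N = C 3 := h
          have : P0 - C 3 * f P0 = 0 := by rw [← this]; linarith
          rw [this, mul_zero]
      rw [h0]
      have := mul_pos (pow_pos hP0.1 2) hfP0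
      linarith
    have hHpm : 0 < H pm := by
      show 0 < (pm - C 1 * f pm) * (pm - C 3 * f pm) - pm ^ 2 * f pm
      rw [hfpm]
      simp only [mul_zero, sub_zero]
      positivity
    obtain ⟨P, hP, hHP⟩ := intermediate_value_Ioo hP0.2.le hHc.continuousOn ⟨hHP0, hHpm⟩
    have hPpos : 0 < P := hP0.1.trans hP.1
    obtain ⟨b1, d1⟩ := hbpos P hP.2 hPpos.le
    have hfP : 0 < f P := mul_pos b1 d1
    have hfle : f P ≤ f P0 := by
      show (1 - C 0 * P) * (1 - C 2 * P) ≤ (1 - C 0 * P0) * (1 - C 2 * P0)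
      have e1 : 1 - C 0 * P ≤ 1 - C 0 * P0 := by nlinarith [hP.1]
      have e2 : 1 - C 2 * P ≤ 1 - C 2 * P0 := by nlinarith [hP.1]
      exact mul_le_mul e1 e2 d1.le b0.le
    have hNf : 0 < P - N * f P := by nlinarith [hP.1, mul_le_mul_of_nonneg_left hfle hn'.le]
    have hc1 : 0 < P - C 1 * f P := by nlinarith [mul_le_mul_of_nonneg_right hCN1 hfP.le]
    have hc3 : 0 < P - C 3 * f P := by nlinarith [mul_le_mul_of_nonneg_right hCN3 hfP.le]
    have hH : (P - C 1 * f P) * (P - C 3 * f P) = P ^ 2 * f P := by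
      have : (P - C 1 * f P) * (P - C 3 * f P) - P ^ 2 * f P = 0 := hHP
      linarith
    have hfe : f P = (1 - C 0 * P) * (1 - C 2 * P) := rfl
    obtain ⟨Q, hQ⟩ : ∃ Q, Q = f P / P := ⟨_, rfl⟩
    obtain ⟨a, ha⟩ : ∃ a, a = 1 - C 3 * Q := ⟨_, rfl⟩
    obtain ⟨b, hb⟩ : ∃ b, b = 1 - C 0 * P := ⟨_, rfl⟩
    obtain ⟨c, hc⟩ : ∃ c, c = 1 - C 1 * Q := ⟨_, rfl⟩
    obtain ⟨d, hd⟩ : ∃ d, d = 1 - C 2 * P := ⟨_, rfl⟩
    have Qp : 0 < Q := by rw [hQ]; positivity
    have hQP : Q * P = f P := by rw [hQ]; field_simp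
    have haP : a * P = P - C 3 * f P := by rw [ha, ← hQP]; ring
    have hcP : c * P = P - C 1 * f P := by rw [hc, ← hQP]; ring
    have ap : 0 < a := by
      rw [← haP] at hc3; exact (mul_pos_iff_of_pos_right hPpos).1 hc3
    have cp : 0 < c := by
      rw [← hcP] at hc1; exact (mul_pos_iff_of_pos_right hPpos).1 hc1
    have bp : 0 < b := by rw [hb]; exact b1
    have dp : 0 < d := by rw [hd]; exact d1
    have hac : a * c = P * Q := by
      have : P ^ 2 * (a * c) = P ^ 2 * (P * Q) := by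
        calc P ^ 2 * (a * c) = (c * P) * (a * P) := by ring
          _ = P ^ 2 * f P := by rw [haP, hcP, hH]
          _ = P ^ 2 * (P * Q) := by rw [← hQP]; ring
      exact mul_left_cancel₀ (by positivity) this
    have hbd : b * d = P * Q := by rw [hb, hd, ← hfe, ← hQP]; ring
    set s := Real.sqrt (a * Q / b) with hs
    have s0 : 0 < s := Real.sqrt_pos.2 (by positivity)
    have s2 : s ^ 2 * b = a * Q := by
      rw [hs, Real.sq_sqrt (by positivity)]; field_simp
    -- y0 = s, y1 = a/s, y2 = Q/s, y3 = P s/a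
    have e12 : a / s * (Q / s) = b := by
      have : a / s * (Q / s) = (a * Q) / s ^ 2 := by field_simp
      rw [this, ← s2]; field_simp
    have e23 : Q / s * (P * s / a) = c := by
      have : Q / s * (P * s / a) = (P * Q) / a := by field_simp
      rw [this, ← hac]; field_simp
    have e30 : P * s / a * s = d := by
      have : P * s / a * s = P * (s ^ 2 * b) / (a * b) := by field_simp
      rw [this, s2]
      have : P * (a * Q) / (a * b) = (P * Q) / b := by field_simp
      rw [this, ← hbd]; field_simp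
    refine ⟨![s, a / s, Q / s, P * s / a], ?_, ?_⟩
    · intro i
      fin_cases i
      · exact s0
      · show 0 < a / s; positivity
      · show 0 < Q / s; positivity
      · show 0 < P * s / a; positivity
    · intro i
      fin_cases i
      · show a / s * (C 0 * (P * s / a) + Q / s) = 1
        have : a / s * (C 0 * (P * s / a) + Q / s) = C 0 * P + a / s * (Q / s) := by
          field_simp
        rw [this, e12, hb]; ring
      · show Q / s * (C 1 * s + P * s / a) = 1
        have : Q / s * (C 1 * s + P * s / a) = C 1 * Q + Q / s * (P * s / a) := by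
          field_simp
        rw [this, e23, hc]; ring
      · show P * s / a * (C 2 * (a / s) + s) = 1
        have : P * s / a * (C 2 * (a / s) + s) = C 2 * P + P * s / a * s := by
          field_simp
        rw [this, e30, hd]; ring
      · show s * (C 3 * (Q / s) + a / s) = 1
        have : s * (C 3 * (Q / s) + a / s) = C 3 * Q + a := by
          field_simp
        rw [this, ha]; ring

/-- Full answer: for every least period `k ≥ 2` and all `C_i ≥ 0`, every positive solution of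
`x_{n+1} = 1 / (C_n x_{n-1} + x_{n-2})` is bounded if and only if the cyclic system
`y_{i+1} (C_i y_{i-1} + y_{i-2}) = 1` (indices mod `k`) has a positive solution; otherwise every
positive solution is unbounded.  The condition is made explicit for `k ≤ 5`. -/
theorem result (k : ℕ) (hk : 2 ≤ k) (C : ZMod k → ℝ) (hC : ∀ i, 0 ≤ C i) (hp : LeastPeriod C) :
    ((∀ x, IsSolution C x → Bounded x) ↔ ∃ y, Cyclic C y) ∧
    ((¬ ∃ y, Cyclic C y) → ∀ x, IsSolution C x → ¬ Bounded x) ∧
    (k = 2 → ((∃ y, Cyclic C y) ↔ 0 < C 0 ∧ 0 < C 1)) ∧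
    (k = 3 → ∃ y, Cyclic C y) ∧
    (k = 4 → ((∃ y, Cyclic C y) ↔ (0 < C 0 ∨ 0 < C 2) ∧ (0 < C 1 ∨ 0 < C 3))) ∧
    (k = 5 → ((∃ y, Cyclic C y) ↔ ∀ i,
      0 < 1 - C (i - 2) * (1 - C (i - 4) * (1 - C (i - 6) * (1 - C (i - 8)))))) := by
  have : NeZero k := ⟨by omega⟩
  have hcr := criterion (coef_nonneg hC) (coef_pos (C := C))
  have h1 : (∀ x, IsSolution C x → Bounded x) ↔ ∃ y, Cyclic C y := by
    rw [cyc_iff, ← hcr.1]
    simp only [sol_iff hC, Bounded]
  refine ⟨h1, ?_, ?_, ?_, ?_, ?_⟩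
  · intro hn x hx hbx
    apply hn
    rw [← h1]
    intro z hz
    rw [sol_iff hC] at hx hz
    exact hcr.2 ⟨x, hx, hbx⟩ z hz
  · rintro rfl
    exact case_two C hC hp
  · rintro rfl
    exact case_three C hC
  · rintro rfl
    exact case_four C hC hp
  · rintro rfl
    exact case_five C hC

end Pool.Agent.Results.MP_aa7c57_an.PeriodicCriterion
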